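import Pool.Agent.MP_8be872_ag.H97.KosB

/-! Kostant's formula. -/

namespace Pool.Agent.MP_8be872_ag.H97

open Finset H63

set_option linter.unusedSectionVars false

variable {V ι A : Type} [Fintype V] [DecidableEq V] [DecidableEq ι] [Ring A]
variable {R : V × V → Prop} [DecidablePred R]

/-- Extension by zero. -/
def xt (c : Subtype R → A) (a b : V) : A := if h : R (a, b) then c ⟨(a, b), h⟩ else 0

/-- The indicator function of the roots. -/
def ind (R : V × V → Prop) [DecidablePred R] (a b : V) : ℤ := if R (a, b) then 1 else 0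

theorem xt_val (c : Subtype R → A) (r : Subtype R) : xt c r.1.1 r.1.2 = c r := dif_pos r.2

theorem xt_pos (c : Subtype R → A) {a b : V} (h : R (a, b)) : xt c a b = c ⟨(a, b), h⟩ := dif_pos h

theorem xt_neg (c : Subtype R → A) {a b : V} (h : ¬R (a, b)) : xt c a b = 0 := dif_neg h

theorem sumR (g : V → V → A) : ∑ r : Subtype R, g r.1.1 r.1.2 = ∑ a, ∑ b, ind R a b • g a b := by
  rw [← Fintype.sum_prod_type', ← sum_subtype (univ.filter R) (by simp) fun p : V × V => g p.1 p.2,
    sum_filter]
  simp [ind]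

theorem sumR0 (g : V → V → A) (h : ∀ a b, ¬R (a, b) → g a b = 0) :
    ∑ r : Subtype R, g r.1.1 r.1.2 = ∑ a, ∑ b, g a b := by
  rw [sumR]
  refine sum_congr rfl fun a _ => sum_congr rfl fun b _ => ?_
  by_cases k : R (a, b)
  · simp [ind, k]
  · simp [h a b k]

theorem sumR3 (g : V → V → V → V → V → V → A)
    (h : ∀ a b a' b' x y, ¬R (a, b) ∨ ¬R (a', b') ∨ ¬R (x, y) → g a b a' b' x y = 0) :
    ∑ r : Subtype R, ∑ r' : Subtype R, ∑ r'' : Subtype R,
      (if r.1.2 = r'.1.1 ∧ r''.1 = (r.1.1, r'.1.2) then
        g r.1.1 r.1.2 r'.1.1 r'.1.2 r''.1.1 r''.1.2 else 0) = ∑ a, ∑ b, ∑ c, g a b b c a c := by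
  have e1 : ∀ a b a' b', ∑ r'' : Subtype R, (if b = a' ∧ r''.1 = (a, b') then
      g a b a' b' r''.1.1 r''.1.2 else 0) = if b = a' then g a b a' b' a b' else 0 := by
    intro a b a' b'
    rw [sumR0 (fun x y => if b = a' ∧ (x, y) = (a, b') then g a b a' b' x y else 0)
      fun x y k => by simp [h a b a' b' x y (Or.inr (Or.inr k))]]
    by_cases k : b = a'
    · simp [k, ite_and]
    · simp [k]
  have e2 : ∀ a b, ∑ r' : Subtype R, (if b = r'.1.1 then g a b r'.1.1 r'.1.2 a r'.1.2 else 0) =
      ∑ c, g a b b c a c := by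
    intro a b
    rw [sumR0 (fun x y => if b = x then g a b x y a y else 0)
      fun x y k => by simp [h a b x y a y (Or.inr (Or.inl k))], sum_comm]
    simp
  simp only [e1, e2]
  exact sumR0 (fun a b => ∑ c, g a b b c a c) fun a b k => by simp [h a b b _ a _ (Or.inl k)]

theorem dat {vert : V → ι} {key : V → ℕ} {E : V → V → A} {c u : Subtype R → A}
    (hk : Function.Injective key) (hR : ∀ a b, R (a, b) ↔ vert a = vert b ∧ key b < key a)
    (hE : GlRel vert E) (h : Car R E c u) : Dat vert (ind R) E (xt c) (xt u) where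
  cc a b x y := by
    by_cases k : R (a, b) <;> by_cases k' : R (x, y) <;> simp [xt, k, k']
    exact h.cc _ _
  uu a b x y := by
    by_cases k : R (a, b) <;> by_cases k' : R (x, y) <;> simp [xt, k, k']
    exact h.uu _ _
  uc a b x y := by
    by_cases k : R (a, b)
    · by_cases k' : R (x, y)
      · rw [xt_pos u k, xt_pos c k', eq_sub_iff_add_eq, h.uc]
        simp [ind, k]
      · have : ¬(a = x ∧ b = y) := fun e => k' (e.1 ▸ e.2 ▸ k)
        simp [xt_neg c k', this]
    · simp [xt_neg u k, ind, k]
  Ec a b x y := by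
    by_cases k : R (x, y) <;> simp [xt, k, h.Ec]
  Eu a b x y := by
    by_cases k : R (x, y) <;> simp [xt, k, h.Eu]
  gl := hE
  c0 a b k := xt_neg c fun e => k ((hR a b).1 e).1
  u0 a b k := xt_neg u fun e => k ((hR a b).1 e).1
  r0 a b k := if_neg fun e => k ((hR a b).1 e).1
  tri a b k := by
    simp only [ind, hR, k, true_and, ← hk.eq_iff]
    split_ifs <;> omega
  asym a b := by
    simp only [ind, hR]
    split_ifs <;> omega
  rc a b := by
    by_cases k : R (a, b) <;> simp [xt, ind, k]
  tr a b d := by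
    by_cases k : R (a, b)
    · by_cases k' : R (b, d)
      · have : R (a, d) := (hR a d).2 ⟨((hR a b).1 k).1.trans ((hR b d).1 k').1,
          ((hR b d).1 k').2.trans ((hR a b).1 k).2⟩
        simp [ind, this]
      · simp [xt_neg c k']
    · simp [xt_neg c k]
  caa a := xt_neg c fun e => lt_irrefl _ ((hR a a).1 e).2
  cnt x y b := by
    by_cases k : R (x, y)
    · obtain ⟨k1, k2⟩ := (hR x y).1 k
      congr 1
      by_cases k3 : vert b = vert y
      · simp only [ind, hR, k1, k3, true_and, ← hk.eq_iff]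
        split_ifs <;> omega
      · have k4 : b ≠ y := fun e => k3 (by rw [e])
        have k5 : b ≠ x := fun e => k3 (by rw [e, k1])
        simp [ind, hR, k1, k3, Ne.symm k3, k4, k5]
    · simp [xt_neg c k]

theorem k1 : K1Stmt := by
  intro V ι A _ _ _ _ _ vert key R _ E c u hk hR hE h
  have eD : ceD R E c u = d1 E (xt c) - d2 (xt c) (xt u) := by
    rw [ceD, d1, d2, ← sumR0 (R := R) (fun a b => xt c a b * E a b) fun a b k => by
        simp [xt_neg c k],
      ← sumR3 (R := R) (fun a b a' b' x y => xt c a b * xt c a' b' * xt u x y) ?_]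
    · simp only [xt_val]
    · rintro a b a' b' x y (k | k | k) <;> simp [xt_neg _ k]
  have eH : ceH R E c u = h1 E (xt u) - h2 (xt c) (xt u) := by
    rw [ceH, h1, h2, ← sumR0 (R := R) (fun a b => xt u a b * E b a) fun a b k => by
        simp [xt_neg u k],
      ← sumR3 (R := R) (fun a b a' b' x y => xt c x y * xt u a' b' * xt u a b) ?_]
    · simp only [xt_val]
    · rintro a b a' b' x y (k | k | k) <;> simp [xt_neg _ k]
  have eW : ∀ a, totW R E c u a = E a a - G (xt c) (xt u) a a := fun a => by
    have e := sumR0 (R := R) (fun x y => (if y = a then xt c x y * xt u x y else 0) -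
      if x = a then xt c x y * xt u x y else 0) fun x y k => by simp [xt_neg c k]
    simp only [xt_val] at e
    rw [totW, e, G]
    simp only [sum_sub_distrib, sum_ite_eq', mem_univ, if_true]
    rw [sum_comm]
    simp only [sum_ite_eq', mem_univ, if_true]
    abel
  have e := (dat hk hR hE h).main
  rw [two_smul] at e
  rw [two_smul, sumR (R := R) fun a b => totW R E c u a - totW R E c u b]
  simp only [eD, eH, eW]
  exact e

end Pool.Agent.MP_8be872_ag.H97
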