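import Pool.Agent.MP_8be872_ag.H63.SpecA

/-! Kostant's formula, with the fermions indexed by all pairs of indices. -/

namespace Pool.Agent.MP_8be872_ag.H97

open Finset H63

set_option linter.unusedSectionVars false

variable {V ι A : Type} [Fintype V] [DecidableEq V] [DecidableEq ι] [Ring A]

/-- Fermions indexed by pairs; `ρ` is the indicator function of the positive roots. -/
structure Dat (vert : V → ι) (ρ : V → V → ℤ) (E C U : V → V → A) : Prop where
  cc : ∀ a b x y, C a b * C x y = -(C x y * C a b)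
  uu : ∀ a b x y, U a b * U x y = -(U x y * U a b)
  uc : ∀ a b x y, U a b * C x y = (if a = x ∧ b = y then ρ a b else 0) • (1 : A) - C x y * U a b
  Ec : ∀ a b x y, E a b * C x y = C x y * E a b
  Eu : ∀ a b x y, E a b * U x y = U x y * E a b
  gl : GlRel vert E
  c0 : ∀ a b, vert a ≠ vert b → C a b = 0
  u0 : ∀ a b, vert a ≠ vert b → U a b = 0
  r0 : ∀ a b, vert a ≠ vert b → ρ a b = 0
  tri : ∀ a b, vert a = vert b → 1 - ρ a b - ρ b a = if a = b then 1 else 0
  asym : ∀ a b, ρ a b * ρ b a = 0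
  rc : ∀ a b, ρ a b • C a b = C a b
  tr : ∀ a b c, ρ a c • (C a b * C b c) = C a b * C b c
  caa : ∀ a, C a a = 0
  cnt : ∀ x y b, (ρ x b - ρ y b + ρ b y - ρ b x) • C x y =
    (2 * (ρ x b * ρ b y) + (if b = y then 1 else 0) + if b = x then 1 else 0 : ℤ) • C x y

def d1 (E C : V → V → A) : A := ∑ a, ∑ b, C a b * E a b
def h1 (E U : V → V → A) : A := ∑ a, ∑ b, U a b * E b a
def d2 (C U : V → V → A) : A := ∑ a, ∑ b, ∑ c, C a b * C b c * U a c
def h2 (C U : V → V → A) : A := ∑ a, ∑ b, ∑ c, C a c * U b c * U a b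
/-- The fermionic currents. -/
def G (C U : V → V → A) (a x : V) : A := ∑ b, C a b * U x b - ∑ w, C w x * U w a

section perm

variable (f : V → V → V → V → A)

theorem s12 : ∑ a, ∑ b, ∑ c, ∑ d, f a b c d = ∑ a, ∑ b, ∑ c, ∑ d, f b a c d := sum_comm
theorem s23 : ∑ a, ∑ b, ∑ c, ∑ d, f a b c d = ∑ a, ∑ b, ∑ c, ∑ d, f a c b d :=
  sum_congr rfl fun _ _ => sum_comm
theorem s34 : ∑ a, ∑ b, ∑ c, ∑ d, f a b c d = ∑ a, ∑ b, ∑ c, ∑ d, f a b d c :=
  sum_congr rfl fun _ _ => sum_congr rfl fun _ _ => sum_comm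
theorem s24 : ∑ a, ∑ b, ∑ c, ∑ d, f a b c d = ∑ a, ∑ b, ∑ c, ∑ d, f a d c b :=
  (s34 _).trans ((s23 _).trans (s34 _))
theorem s14 : ∑ a, ∑ b, ∑ c, ∑ d, f a b c d = ∑ a, ∑ b, ∑ c, ∑ d, f d b c a :=
  (s12 _).trans ((s24 _).trans (s12 _))
theorem s1234 : ∑ a, ∑ b, ∑ c, ∑ d, f a b c d = ∑ a, ∑ b, ∑ c, ∑ d, f b a d c :=
  (s12 _).trans (s34 _)

end perm

variable {vert : V → ι} {ρ : V → V → ℤ} {E C U : V → V → A}

theorem Dat.uc' (h : Dat vert ρ E C U) (a b x y : V) (X : A) : U a b * (C x y * X) =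
    (if a = x ∧ b = y then ρ a b else 0) • X - C x y * (U a b * X) := by
  rw [← mul_assoc, h.uc, sub_mul, smul_mul_assoc, one_mul, mul_assoc]

theorem Dat.cc' (h : Dat vert ρ E C U) (a b x y : V) (X : A) :
    C a b * (C x y * X) = -(C x y * (C a b * X)) := by
  rw [← mul_assoc, h.cc, neg_mul, mul_assoc]

theorem Dat.tri' (h : Dat vert ρ E C U) (a b : V) (X : A) (hX : vert a ≠ vert b → X = 0) :
    X - ρ a b • X - ρ b a • X = if a = b then X else 0 := by
  by_cases e : vert a = vert b
  · have := congrArg (· • X) (h.tri a b e)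
    simpa [sub_smul] using this
  · simp [hX e]

theorem Dat.d2_c (h : Dat vert ρ E C U) (a c : V) :
    d2 C U * C a c + C a c * d2 C U = ∑ y, C a y * C y c := by
  have e : ∀ x y z, C x y * C y z * U x z * C a c + C a c * (C x y * C y z * U x z) =
      (if x = a ∧ z = c then ρ x z else 0) • (C x y * C y z) := by
    intro x y z
    simp only [mul_assoc]
    rw [h.uc, h.cc' a c x y, h.cc' a c y z]
    simp only [mul_sub, mul_smul_comm, mul_one, mul_neg, neg_neg]
    abel
  simp only [d2, sum_mul, mul_sum, ← sum_add_distrib, e]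
  simp [ite_and, h.tr]

theorem Dat.d2_u (h : Dat vert ρ E C U) (x y : V) :
    d2 C U * U x y + U x y * d2 C U = ρ x y • G C U y x := by
  have e : ∀ a b c, C a b * C b c * U a c * U x y + U x y * (C a b * C b c * U a c) =
      (if x = a ∧ y = b then ρ x y else 0) • (C b c * U a c) -
        (if x = b ∧ y = c then ρ x y else 0) • (C a b * U a c) := by
    intro a b c
    simp only [mul_assoc]
    rw [h.uc', h.uc', h.uu x y a c]
    simp only [mul_sub, mul_smul_comm, mul_neg]
    abel
  simp only [d2, sum_mul, mul_sum, ← sum_add_distrib, e]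
  simp [ite_and, G, smul_sub, smul_sum]

theorem Dat.c_h2 (h : Dat vert ρ E C U) (x y : V) :
    C x y * h2 C U + h2 C U * C x y = ρ x y • G C U x y := by
  have e : ∀ a b c, C x y * (C a c * U b c * U a b) + C a c * U b c * U a b * C x y =
      (if a = x ∧ b = y then ρ a b else 0) • (C a c * U b c) -
        (if b = x ∧ c = y then ρ b c else 0) • (C a c * U a b) := by
    intro a b c
    simp only [mul_assoc]
    rw [h.uc a b x y, mul_sub, h.uc', h.cc' x y a c]
    simp only [mul_sub, mul_smul_comm, mul_one]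
    abel
  simp only [h2, sum_mul, mul_sum, ← sum_add_distrib, e]
  simp [ite_and, G, smul_sub, smul_sum]

theorem Dat.d1_h1 (h : Dat vert ρ E C U) : d1 E C * h1 E U + h1 E U * d1 E C =
    ∑ a, ∑ b, ρ a b • (E b a * E a b) + ∑ a, ∑ x, G C U a x * E a x := by
  have e : ∀ a b x y, C a b * E a b * (U x y * E y x) + U x y * E y x * (C a b * E a b) =
      (if x = a ∧ y = b then ρ x y else 0) • (E y x * E a b) +
        ((if b = y then C a b * U x y * E a x else 0) -
          if x = a then C a b * U x y * E y b else 0) := by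
    intro a b x y
    have e1 : C a b * E a b * (U x y * E y x) = C a b * U x y * (E a b * E y x) := by
      rw [mul_assoc, ← mul_assoc (E a b), h.Eu]
      simp only [mul_assoc]
    have e2 : U x y * E y x * (C a b * E a b) = (if x = a ∧ y = b then ρ x y else 0) •
        (E y x * E a b) - C a b * U x y * (E y x * E a b) := by
      rw [mul_assoc, ← mul_assoc (E y x), h.Ec, mul_assoc, h.uc', mul_assoc]
    have e3 : C a b * U x y * (E a b * E y x) - C a b * U x y * (E y x * E a b) =
        (if b = y then C a b * U x y * E a x else 0) -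
          if x = a then C a b * U x y * E y b else 0 := by
      by_cases k1 : vert a = vert b
      · by_cases k2 : vert x = vert y
        · rw [← mul_sub, h.gl a b y x k1 k2.symm, mul_sub, mul_ite, mul_ite, mul_zero]
        · simp [h.u0 x y k2]
      · simp [h.c0 a b k1]
    rw [e1, e2, ← e3]
    abel
  have e' : h1 E U * d1 E C = ∑ a, ∑ b, ∑ x, ∑ y, U x y * E y x * (C a b * E a b) := by
    simp only [h1, d1, sum_mul, mul_sum]
  have e'' : d1 E C * h1 E U = ∑ a, ∑ b, ∑ x, ∑ y, C a b * E a b * (U x y * E y x) := by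
    simp only [h1, d1]
    rw [sum_mul]
    refine sum_congr rfl fun a _ => ?_
    rw [sum_mul]
    refine sum_congr rfl fun b _ => ?_
    simp only [mul_sum]
  rw [e', e'']
  simp only [← sum_add_distrib, e]
  simp only [sum_add_distrib, sum_sub_distrib, G, sub_mul, sum_mul]
  congr 1
  · simp [ite_and]
  congr 1
  · simp only [sum_ite_eq, mem_univ, if_true]
    exact sum_congr rfl fun _ _ => sum_comm
  · rw [s34]
    simp only [sum_ite_eq', mem_univ, if_true]
    rw [sum_comm]
    refine (sum_congr rfl fun _ _ => sum_comm).trans ?_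
    rw [sum_comm]

end Pool.Agent.MP_8be872_ag.H97
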