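import Pool.Agent.MP_8be872_ag.H97.KosA

/-! Kostant's formula: the fermionic part and the assembly over all pairs of indices. -/

namespace Pool.Agent.MP_8be872_ag.H97

open Finset H63

set_option linter.unusedSectionVars false

variable {V ι A : Type} [Fintype V] [DecidableEq V] [DecidableEq ι] [Ring A]
variable {vert : V → ι} {ρ : V → V → ℤ} {E C U : V → V → A}

theorem Dat.G0 (h : Dat vert ρ E C U) (a x : V) (e : vert a ≠ vert x) : G C U a x = 0 := by
  have h1 : ∀ b, C a b * U x b = 0 := fun b => by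
    by_cases k : vert a = vert b
    · rw [h.u0 x b fun k' => e (k.trans k'.symm), mul_zero]
    · rw [h.c0 a b k, zero_mul]
  have h2 : ∀ w, C w x * U w a = 0 := fun w => by
    by_cases k : vert w = vert x
    · rw [h.u0 w a fun k' => e (k'.symm.trans k), mul_zero]
    · rw [h.c0 w x k, zero_mul]
  simp [G, h1, h2]

theorem Dat.lin (h : Dat vert ρ E C U) : d1 E C * h1 E U + h1 E U * d1 E C -
    (d1 E C * h2 C U + h2 C U * d1 E C) - (d2 C U * h1 E U + h1 E U * d2 C U) =
    ∑ a, ∑ b, ρ a b • (E b a * E a b) + ∑ a, G C U a a * E a a := by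
  have k1 : ∀ a b, E a b * h2 C U = h2 C U * E a b := fun a b => by
    simp only [h2, sum_mul, mul_sum]
    refine sum_congr rfl fun x _ => sum_congr rfl fun y _ => sum_congr rfl fun z _ => ?_
    rw [← mul_assoc, ← mul_assoc, h.Ec, mul_assoc (C _ _), h.Eu, ← mul_assoc, mul_assoc _ (E a b),
      h.Eu, ← mul_assoc]
  have k2 : ∀ a b, E a b * d2 C U = d2 C U * E a b := fun a b => by
    simp only [d2, sum_mul, mul_sum]
    refine sum_congr rfl fun x _ => sum_congr rfl fun y _ => sum_congr rfl fun z _ => ?_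
    rw [← mul_assoc, ← mul_assoc, h.Ec, mul_assoc (C _ _), h.Ec, ← mul_assoc, mul_assoc _ (E a b),
      h.Eu, ← mul_assoc]
  have e1 : d1 E C * h2 C U + h2 C U * d1 E C = ∑ a, ∑ x, ρ a x • (G C U a x * E a x) := by
    simp only [d1, sum_mul, mul_sum, ← sum_add_distrib]
    refine sum_congr rfl fun a _ => sum_congr rfl fun x _ => ?_
    rw [mul_assoc, k1, ← mul_assoc, ← mul_assoc, ← add_mul, h.c_h2, smul_mul_assoc]
  have e2 : d2 C U * h1 E U + h1 E U * d2 C U = ∑ a, ∑ x, ρ x a • (G C U a x * E a x) := by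
    rw [sum_comm]
    simp only [h1, sum_mul, mul_sum, ← sum_add_distrib]
    refine sum_congr rfl fun a _ => sum_congr rfl fun x _ => ?_
    rw [mul_assoc, k2, ← mul_assoc, ← mul_assoc, ← add_mul, h.d2_u, smul_mul_assoc]
  rw [h.d1_h1, e1, e2, add_sub_assoc, add_sub_assoc]
  congr 1
  simp only [← sum_sub_distrib]
  refine sum_congr rfl fun a _ => ?_
  rw [sum_congr rfl fun x _ => h.tri' a x _ fun e => by rw [h.G0 a x e, zero_mul]]
  simp

/-- Products of number operators. -/
theorem Dat.nn (h : Dat vert ρ E C U) (a b x y : V) : C a b * (C x y * (U x y * U a b)) =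
    C a b * U a b * (C x y * U x y) - if a = x ∧ b = y then C a b * U a b else 0 := by
  rw [mul_assoc, h.uc', h.uu a b x y]
  by_cases e : a = x ∧ b = y
  · obtain ⟨rfl, rfl⟩ := e
    simp only [and_self, if_true, mul_sub, mul_smul_comm, ← smul_mul_assoc, h.rc, mul_neg]
    abel
  · simp [e]

theorem Dat.nn' (h : Dat vert ρ E C U) (a b x y : V) :
    C a b * U a b * (C x y * U x y) = C x y * U x y * (C a b * U a b) := by
  have e1 := h.nn a b x y
  have e2 := h.nn x y a b
  rw [h.cc', h.uu a b x y, mul_neg, mul_neg, neg_neg, e1] at e2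
  by_cases e : a = x ∧ b = y
  · obtain ⟨rfl, rfl⟩ := e
    rfl
  · have e' : ¬(x = a ∧ y = b) := fun k => e ⟨k.1.symm, k.2.symm⟩
    simpa [e, e'] using e2

theorem Dat.d2_h2 (h : Dat vert ρ E C U) : d2 C U * h2 C U + h2 C U * d2 C U =
    ∑ a, ∑ b, ∑ c, (ρ a b * ρ b c) • (C a c * U a c) +
      ∑ a, ∑ b, ∑ c, C a b * U a b * (C b c * U b c) +
      ∑ a, ∑ b, ∑ c, ∑ z, (ρ z c - ρ a b) • (C a c * (C b z * (U b c * U a z))) := by
  have e : ∀ a b c, d2 C U * (C a c * U b c * U a b) + C a c * U b c * U a b * d2 C U =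
      (ρ a b * ρ b c) • (C a c * U a c) + (∑ y, C a y * (C y c * (U b c * U a b)) -
        ∑ z, ρ b c • (C a c * (C c z * (U b z * U a b))) -
        ∑ w, ρ a b • (C w a * (C a c * (U b c * U w b)))) +
        (∑ w, ρ b c • (C a c * (C w b * (U w c * U a b))) -
          ∑ z, ρ a b • (C a c * (C b z * (U b c * U a z)))) := by
    intro a b c
    have e0 : d2 C U * (C a c * U b c * U a b) + C a c * U b c * U a b * d2 C U =
        (d2 C U * C a c + C a c * d2 C U) * (U b c * U a b) -
          C a c * ((d2 C U * U b c + U b c * d2 C U) * U a b) +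
          C a c * (U b c * (d2 C U * U a b + U a b * d2 C U)) := by noncomm_ring
    have e1 : ρ a b • ∑ w, (if b = w ∧ c = a then ρ b c else 0) • (C a c * U w b) = 0 := by
      by_cases k : c = a
      · subst k
        simp [h.caa]
      · simp [k]
    have e2 : ∑ z, (if c = z then ρ b c else 0) • (C a c * U a z) =
        ρ b c • (C a c * U a c) := by simp
    rw [e0, h.d2_c, h.d2_u, h.d2_u]
    simp only [G, smul_mul_assoc, mul_smul_comm, sub_mul, mul_sub, sum_mul, mul_sum, mul_assoc,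
      h.uc', sum_sub_distrib, true_and, e2, h.cc' a c _ a, ← smul_sum, smul_sub, e1, mul_smul,
      sum_neg_distrib, smul_neg]
    abel
  have eP : ∑ a, ∑ b, ∑ c, (∑ y, C a y * (C y c * (U b c * U a b)) -
        ∑ z, ρ b c • (C a c * (C c z * (U b z * U a b))) -
        ∑ w, ρ a b • (C w a * (C a c * (U b c * U w b)))) =
      ∑ a, ∑ b, ∑ c, C a b * U a b * (C b c * U b c) := by
    simp only [sum_sub_distrib]
    rw [s34 fun a b c z => ρ b c • (C a c * (C c z * (U b z * U a b))),
      s14 fun a b c w => ρ a b • (C w a * (C a c * (U b c * U w b)))]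
    simp only [← sum_sub_distrib]
    refine sum_congr rfl fun a _ => sum_congr rfl fun b _ => sum_congr rfl fun c _ => ?_
    rw [sum_congr rfl fun y _ => h.tri' b y _ fun k => ?_]
    · simp only [sum_ite_eq, mem_univ, if_true]
      rw [h.nn]
      by_cases k : a = b
      · simp [k, h.caa]
      · simp [k]
    · by_cases k' : vert y = vert c
      · rw [h.u0 b c fun k'' => k (k''.trans k'.symm)]
        simp
      · rw [h.c0 y c k']
        simp
  simp only [h2, sum_mul, mul_sum, ← sum_add_distrib, e]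
  simp only [sum_add_distrib]
  rw [eP]
  congr 1
  simp only [sum_sub_distrib, sub_smul]
  rw [s24 fun a b c w => ρ b c • (C a c * (C w b * (U w c * U a b)))]

theorem Dat.quart (h : Dat vert ρ E C U) :
    (2 : ℤ) • ∑ a, ∑ b, ∑ c, ∑ z, (ρ z c - ρ a b) • (C a c * (C b z * (U b c * U a z))) =
      (2 : ℤ) • ∑ a, ∑ b, C a b * U a b - ∑ a, (∑ b, C a b * U a b) * (∑ b, C a b * U a b) -
        ∑ a, (∑ b, C b a * U b a) * ∑ b, C b a * U b a := by
  have sy : ∀ a b c z, C b z * (C a c * (U a z * U b c)) = C a c * (C b z * (U b c * U a z)) := by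
    intro a b c z
    rw [h.cc', h.uu, mul_neg, mul_neg, neg_neg]
  have e : ∀ a b c z, (ρ z c - ρ a b) • (C a c * (C b z * (U b c * U a z))) +
      (ρ c z - ρ b a) • (C a c * (C b z * (U b c * U a z))) =
      (if a = b then C a c * (C b z * (U b c * U a z)) else 0) -
        if c = z then C a c * (C b z * (U b c * U a z)) else 0 := by
    intro a b c z
    rw [← h.tri' a b _ fun k => ?_, ← h.tri' c z _ fun k => ?_]
    · simp only [sub_smul]
      abel
    · by_cases k' : vert a = vert c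
      · rw [h.u0 a z fun k'' => k (k'.symm.trans k'')]
        simp
      · rw [h.c0 a c k']
        simp
    · by_cases k' : vert a = vert c
      · rw [h.u0 b c fun k'' => k (k'.trans k''.symm)]
        simp
      · rw [h.c0 a c k']
        simp
  have hs : ∑ a, ∑ b, ∑ c, ∑ z, (ρ z c - ρ a b) • (C a c * (C b z * (U b c * U a z))) =
      ∑ a, ∑ b, ∑ c, ∑ z, (ρ c z - ρ b a) • (C a c * (C b z * (U b c * U a z))) :=
    (s1234 _).trans (sum_congr rfl fun a _ => sum_congr rfl fun b _ => sum_congr rfl fun c _ =>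
      sum_congr rfl fun z _ => by rw [sy])
  rw [two_smul]
  nth_rewrite 2 [hs]
  simp only [← sum_add_distrib, e]
  simp only [sum_sub_distrib]
  rw [s24 fun a b c z => if a = b then C a c * (C b z * (U b c * U a z)) else 0]
  simp only [sum_ite_eq, mem_univ, if_true]
  have e1 : ∀ a c z, C a c * (C a z * (U a c * U a z)) =
      (if c = z then C a c * U a c else 0) - C a c * U a c * (C a z * U a z) := by
    intro a c z
    rw [h.uu, mul_neg, mul_neg, h.nn]
    simp
  have e2 : ∀ a b c, C a c * (C b c * (U b c * U a c)) =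
      C a c * U a c * (C b c * U b c) - if a = b then C a c * U a c else 0 := by
    intro a b c
    rw [h.nn]
    simp
  simp only [e1, e2, sum_sub_distrib, sum_mul_sum, two_smul]
  have e3 : ∑ a, ∑ b, ∑ c, (if a = b then C a c * U a c else 0) = ∑ a, ∑ c, C a c * U a c :=
    sum_congr rfl fun a _ => by rw [sum_comm]; simp
  have e4 : ∑ a, ∑ b, ∑ c, C a c * U a c * (C b c * U b c) =
      ∑ c, ∑ a, ∑ b, C a c * U a c * (C b c * U b c) := by
    rw [sum_comm (γ := V)]
    refine Eq.trans (sum_congr rfl fun _ _ => sum_comm) ?_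
    rw [sum_comm]
    exact sum_congr rfl fun _ _ => sum_comm
  have e5 : ∑ a, ∑ z, ∑ c, C a c * U a c * (C a z * U a z) =
      ∑ a, ∑ c, ∑ z, C a c * U a c * (C a z * U a z) := sum_congr rfl fun _ _ => sum_comm
  rw [e3, e4, e5]
  simp only [sum_ite_eq', mem_univ, if_true]
  abel

theorem Dat.count (h : Dat vert ρ E C U) : ∑ a, ∑ b, ρ a b • (G C U a a - G C U b b) =
    (2 : ℤ) • ∑ a, ∑ b, ∑ c, (ρ a b * ρ b c) • (C a c * U a c) +
      (2 : ℤ) • ∑ a, ∑ b, C a b * U a b := by
  have e : ∀ x y, ∑ b, (ρ x b - ρ y b + ρ b y - ρ b x) • (C x y * U x y) =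
      (2 : ℤ) • ∑ b, (ρ x b * ρ b y) • (C x y * U x y) + (2 : ℤ) • (C x y * U x y) := by
    intro x y
    simp only [← smul_mul_assoc, h.cnt]
    simp only [add_smul, add_mul, sum_add_distrib, ite_smul, one_smul, zero_smul, ite_mul, zero_mul,
      sum_ite_eq', mem_univ, if_true, smul_mul_assoc, two_smul, two_mul]
    abel
  have e1 : ∑ a, ∑ b, ∑ c, (ρ a b * ρ b c) • (C a c * U a c) =
      ∑ a, ∑ c, ∑ b, (ρ a b * ρ b c) • (C a c * U a c) := sum_congr rfl fun _ _ => sum_comm
  have t1 : ∑ a, ∑ b, ∑ y, ρ a b • (C a y * U a y) = ∑ x, ∑ y, ∑ b, ρ x b • (C x y * U x y) :=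
    sum_congr rfl fun _ _ => sum_comm
  have t2 : ∑ a, ∑ b, ∑ w, ρ a b • (C w a * U w a) = ∑ x, ∑ y, ∑ b, ρ y b • (C x y * U x y) :=
    (sum_congr rfl fun _ _ => sum_comm).trans sum_comm
  have t3 : ∑ a, ∑ b, ∑ y, ρ a b • (C b y * U b y) = ∑ x, ∑ y, ∑ b, ρ b x • (C x y * U x y) :=
    sum_comm.trans (sum_congr rfl fun _ _ => sum_comm)
  have t4 : ∑ a, ∑ b, ∑ w, ρ a b • (C w b * U w b) = ∑ x, ∑ y, ∑ b, ρ b y • (C x y * U x y) :=
    sum_comm.trans ((sum_congr rfl fun _ _ => sum_comm).trans sum_comm)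
  have e2 := congrArg (fun f : V → V → A => ∑ x, ∑ y, f x y) (funext fun x => funext (e x))
  simp only [sub_smul, add_smul, sum_add_distrib, sum_sub_distrib, ← smul_sum (r := (2 : ℤ))] at e2
  rw [e1, ← e2]
  simp only [G, smul_sub, smul_sum, sum_sub_distrib]
  rw [t1, t2, t3, t4]
  abel

theorem Dat.cas (h : Dat vert ρ E C U) : casimir vert E = ∑ a, E a a * E a a +
    (2 : ℤ) • ∑ a, ∑ b, ρ a b • (E b a * E a b) + ∑ a, ∑ b, ρ a b • (E a a - E b b) := by
  have e : ∀ a b, (if vert a = vert b then E a b * E b a else 0) =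
      (if a = b then E a b * E b a else 0) + ρ a b • (E b a * E a b) +
        ρ b a • (E a b * E b a) + ρ a b • (E a a - E b b) := by
    intro a b
    by_cases k : vert a = vert b
    · have e1 := h.gl a b b a k k.symm
      have e2 := congrArg (· • (E a b * E b a)) (h.tri a b k)
      simp only [if_true] at e1
      simp only [sub_smul, one_smul, ite_smul, zero_smul] at e2
      rw [if_pos k, ← e1, ← e2, smul_sub]
      abel
    · have k' : a ≠ b := fun e => k (by rw [e])
      simp [k, k', h.r0 a b k, h.r0 b a (Ne.symm k)]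
  have e' : ∑ a, ∑ b, ρ b a • (E a b * E b a) = ∑ a, ∑ b, ρ a b • (E b a * E a b) := sum_comm
  simp only [casimir, e, sum_add_distrib, sum_ite_eq, mem_univ, if_true, two_smul]
  rw [e']
  abel

theorem Dat.main (h : Dat vert ρ E C U) :
    (2 : ℤ) • ((d1 E C - d2 C U) * (h1 E U - h2 C U) + (h1 E U - h2 C U) * (d1 E C - d2 C U)) =
      casimir vert E - ∑ a, (E a a - G C U a a) * (E a a - G C U a a) -
        ∑ a, ∑ b, ρ a b • (E a a - G C U a a - (E b b - G C U b b)) := by
  have e0 : (d1 E C - d2 C U) * (h1 E U - h2 C U) + (h1 E U - h2 C U) * (d1 E C - d2 C U) =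
      d1 E C * h1 E U + h1 E U * d1 E C - (d1 E C * h2 C U + h2 C U * d1 E C) -
        (d2 C U * h1 E U + h1 E U * d2 C U) + (d2 C U * h2 C U + h2 C U * d2 C U) := by
    noncomm_ring
  have e1 : ∀ a, E a a * G C U a a = G C U a a * E a a := fun a => by
    simp only [G, mul_sub, sub_mul, mul_sum, sum_mul, ← mul_assoc, h.Ec]
    simp only [mul_assoc, h.Eu]
  have e2 : ∀ a, (∑ b, C a b * U a b) * ∑ w, C w a * U w a =
      (∑ w, C w a * U w a) * ∑ b, C a b * U a b := fun a => by
    rw [sum_mul_sum, sum_mul_sum, sum_comm]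
    exact sum_congr rfl fun _ _ => sum_congr rfl fun _ _ => h.nn' _ _ _ _
  have e3 : ∑ a, ∑ b, ∑ c, C a b * U a b * (C b c * U b c) =
      ∑ a, (∑ w, C w a * U w a) * ∑ b, C a b * U a b := by
    rw [sum_comm]
    simp only [sum_mul_sum]
  have e4 : ∑ a, G C U a a * G C U a a = ∑ a, (∑ b, C a b * U a b) * (∑ b, C a b * U a b) +
      ∑ a, (∑ b, C b a * U b a) * (∑ b, C b a * U b a) -
        (2 : ℤ) • ∑ a, (∑ w, C w a * U w a) * ∑ b, C a b * U a b := by
    simp only [G, mul_sub, sub_mul, e2, sum_sub_distrib, two_smul]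
    abel
  have e5 : ∑ a, (E a a - G C U a a) * (E a a - G C U a a) = ∑ a, E a a * E a a -
      (2 : ℤ) • ∑ a, G C U a a * E a a + ∑ a, G C U a a * G C U a a := by
    simp only [mul_sub, sub_mul, e1, sum_sub_distrib, two_smul]
    abel
  have e6 : ∑ a, ∑ b, ρ a b • (E a a - G C U a a - (E b b - G C U b b)) =
      ∑ a, ∑ b, ρ a b • (E a a - E b b) - ∑ a, ∑ b, ρ a b • (G C U a a - G C U b b) := by
    simp only [← sum_sub_distrib, ← smul_sub]
    refine sum_congr rfl fun _ _ => sum_congr rfl fun _ _ => ?_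
    congr 1
    abel
  rw [e0, h.lin, h.d2_h2, smul_add, smul_add, smul_add, smul_add, h.quart, e3, e5, e4, e6, h.count,
    h.cas]
  abel

end Pool.Agent.MP_8be872_ag.H97
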